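import Pool.Agent.R466.OM.Main

/-!
# MP_52937b_lc, Q1: the answer is NO

Q1 asks whether, for `T` o-minimal, `M ≺ 𝔘` small, `p` a global `M`-invariant `1`-type with small
cofinality on the right and `b ⊨ p`, the set `p(dcl(Mb))` is always cofinal in `p(dcl(𝔘b))`.

We prove that this fails, for one fixed complete o-minimal theory `T` (the theory of the ordered
rational vector space `ℚ`), in EVERY `κ`-saturated model `U` of `T`, `κ > ℵ₀` (in particular in
every monster model).

The counterexample: choose `e > 0` in `U`, let `M = ℚ e` and let `p` be the type of an element `b`
with `b < q e` for all rational `q > √2` and `b > u` for all `u ∈ U` which are below all these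
`q e`.  Then `p` is `M`-invariant and `{q e | q > √2}` is countable and coinitial in `R_p`.  Every
element of `p(dcl(Mb))` is of the form `q e + r b`, hence equals `b` since `√2` is irrational,
while `b + i ∈ p(dcl(Ub))` for every positive infinitesimal `i ∈ U`.

The definitions used in the statement are in `Pool/Agent/R466/OM/Defs.lean`:
* `Lt lt N a b` : `a < b` in the structure `N`;
* `OpenInt lt N a b` : the open interval with endpoints in `N ∪ {±∞}`;
* `OMinStr lt N` : `N` is a dense linear order without endpoints and all its subsets which are
  definable with parameters are finite unions of points and open intervals;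
* `OMinimal lt T` : `T` is complete and all its models are o-minimal;
* `Saturated L κ U` : `U` is `κ`-saturated;
* `tp ι b` : the complete type over `U` of the element `b` of the elementary extension
  `ι : U → V`, as a set of formulas with parameters in `U` (the parameters are treated as
  variables and interpreted by `ι`);
* `IsGlobalType`, `Invariant M p`, `RightSet lt p` (the set `R_p`), `SmallRight lt κ p`,
  `dcl L A` (the set of all `c` such that `{c}` is `A`-definable);
* `CofinalityProperty lt κ U` : the assertion of Q1 for the model `U` and the cardinal `κ`
  (small means: of cardinality `< κ`).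
-/

namespace Pool.Agent.Results.MP_52937b_lc.CofinalityFails

open FirstOrder FirstOrder.Language Cardinal Pool.Agent.R466.OM

universe u

/-- **Q1 of MP_52937b_lc has a negative answer.** There is a complete o-minimal theory `T` such
that for every cardinal `κ > ℵ₀` and every `κ`-saturated model `U` of `T` there are an elementary
substructure `M` of `U` of cardinality `< κ`, a global `M`-invariant `1`-type `p` with small
cofinality on the right, and a realisation `b` of `p` in an elementary extension `V` of `U` such
that `p(dcl(Mb))` is not cofinal in `p(dcl(Ub))`. -/
theorem result : ∃ (L : FirstOrder.Language.{0, 0}) (lt : L.Relations 2) (T : L.Theory),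
    OMinimal.{u} lt T ∧
      ∀ (κ : Cardinal.{u}) (U : Type u) [L.Structure U], ℵ₀ < κ → U ⊨ T → Saturated L κ U →
        ¬ CofinalityProperty lt κ U :=
  ⟨OV, ltSym, TQ, omin_TQ, fun _ U _ hκ hT hU => main hκ U hT hU⟩

end Pool.Agent.Results.MP_52937b_lc.CofinalityFails
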